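import Pool.Agent.H42.EV.Atom

/-! Sublattices of `ι → ℝ`: many atoms with exactly two elements. -/

open Module

namespace H54.EV

variable {ι : Type*} [Fintype ι]

theorem exists_two (V : Submodule ℝ (ι → ℝ)) (hV : ∀ c ∈ V, (fun i => max (c i) 0) ∈ V)
    (h1 : ∀ b ∈ V, ∀ i, b i ≠ 0 → ∃ l, l ≠ i ∧ b l ≠ 0) (Q : Finset ι)
    (hQ : ∀ c ∈ V, ∀ i, i ∉ Q → c i = 0) {N : ℕ} (hN : Q.card + N ≤ 3 * finrank ℝ V) :
    ∃ (p q : Fin N → ι) (α β : Fin N → ℝ), Function.Injective p ∧ Function.Injective q ∧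
      (∀ i j, p i ≠ q j) ∧ (∀ i, 0 < α i) ∧ (∀ i, 0 < β i) ∧
      (∀ i, ∃ b ∈ V, b (p i) = α i ∧ b (q i) = β i ∧ ∀ l, l ≠ p i → l ≠ q i → b l = 0) ∧
      ∀ i, ∀ c ∈ V, β i * c (p i) = α i * c (q i) := by
  classical
  rcases isEmpty_or_nonempty ι with hE | hE
  · have h0 : finrank ℝ V = 0 := by
      have h := Submodule.finrank_le V
      rw [Module.finrank_fintype_fun_eq_card, Fintype.card_eq_zero] at h
      omega
    have hN0 : N = 0 := by omega
    subst hN0
    exact ⟨fun i => i.elim0, fun i => i.elim0, fun i => i.elim0, fun i => i.elim0,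
      fun i => i.elim0, fun i => i.elim0, fun i => i.elim0, fun i => i.elim0, fun i => i.elim0,
      fun i => i.elim0, fun i => i.elim0⟩
  have hat : ∀ i : ι, (∃ c ∈ V, c i ≠ 0) →
      ∃ b ∈ V, b i = 1 ∧ (∀ l, 0 ≤ b l) ∧ ∀ l, b l ≠ 0 → ∀ c ∈ V, c l = b l * c i :=
    fun i hi => H42.EV.exists_atom V hV hi
  choose! b hbV hb1 hb0 hba using hat
  let S : Finset ι := Finset.univ.filter fun i => ∃ c ∈ V, c i ≠ 0
  have hS : ∀ i, i ∈ S ↔ ∃ c ∈ V, c i ≠ 0 := fun i => by simp [S]
  have hSQ : S ⊆ Q := by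
    intro i hi
    obtain ⟨c, hc, hci⟩ := (hS i).1 hi
    by_contra h
    exact hci (hQ c hc i h)
  let C : ι → Finset ι := fun i => Finset.univ.filter fun l => b i l ≠ 0
  have hC : ∀ i l, l ∈ C i ↔ b i l ≠ 0 := fun i l => by simp [C]
  have hself : ∀ i ∈ S, i ∈ C i := fun i hi => by
    rw [hC, hb1 i ((hS i).1 hi)]; exact one_ne_zero
  have hCS : ∀ i ∈ S, C i ⊆ S := fun i hi l hl =>
    (hS l).2 ⟨b i, hbV i ((hS i).1 hi), (hC i l).1 hl⟩
  have hCle : ∀ i ∈ S, ∀ l ∈ C i, C l ⊆ C i := by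
    intro i hi l hl m hm
    have hl' := (hS l).1 (hCS i hi hl)
    rw [hC] at hm hl ⊢
    rw [hba l hl' m hm (b i) (hbV i ((hS i).1 hi))]
    exact mul_ne_zero hm hl
  have hsymm : ∀ i ∈ S, ∀ l ∈ C i, i ∈ C l := by
    intro i hi l hl
    have hl' := (hS l).1 (hCS i hi hl)
    rw [hC] at hl ⊢
    have h := hba i ((hS i).1 hi) l hl (b l) (hbV l hl')
    rw [hb1 l hl'] at h
    intro h0
    rw [h0, mul_zero] at h
    exact one_ne_zero h
  have hCeq : ∀ i ∈ S, ∀ l ∈ C i, C l = C i := fun i hi l hl =>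
    Finset.Subset.antisymm (hCle i hi l hl)
      (hCle l (hCS i hi hl) i (hsymm i hi l hl))
  let K : Finset (Finset ι) := S.image C
  -- representatives
  have hrep : ∀ X ∈ K, ∃ i ∈ S, C i = X := fun X hX => by
    simpa [K] using hX
  choose! r hrS hrC using hrep
  -- dimension
  have hdim : finrank ℝ V ≤ K.card := by
    let f : V →ₗ[ℝ] (K → ℝ) :=
      { toFun := fun c X => (c : ι → ℝ) (r X)
        map_add' := fun _ _ => rfl
        map_smul' := fun _ _ => rfl }
    have hf : Function.Injective f := by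
      rw [← LinearMap.ker_eq_bot, LinearMap.ker_eq_bot']
      intro c hc
      ext i
      by_cases hi : i ∈ S
      · have hK : C i ∈ K := Finset.mem_image_of_mem C hi
        have h1 : (c : ι → ℝ) (r (C i)) = 0 := congrFun hc ⟨C i, hK⟩
        have h2 : i ∈ C (r (C i)) := by rw [hrC _ hK]; exact hself i hi
        have h3 := hba (r (C i)) ((hS _).1 (hrS _ hK)) i ((hC _ _).1 h2) c c.2
        rw [h3, h1, mul_zero]; rfl
      · by_contra h
        exact hi ((hS i).2 ⟨c, c.2, h⟩)
    have := LinearMap.finrank_le_finrank_of_injective hf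
    simpa using this
  -- disjoint union
  have hsum : ∑ X ∈ K, X.card ≤ Q.card := by
    have hdisj : (K : Set (Finset ι)).PairwiseDisjoint id := by
      intro X hX Y hY hXY
      rw [Function.onFun, Finset.disjoint_left]
      intro m hmX hmY
      apply hXY
      have e1 : C m = X := by
        rw [← hrC X hX]; exact hCeq _ (hrS X hX) m (by rw [hrC X hX]; exact hmX)
      have e2 : C m = Y := by
        rw [← hrC Y hY]; exact hCeq _ (hrS Y hY) m (by rw [hrC Y hY]; exact hmY)
      rw [← e1, e2]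
    have h2 : (K.biUnion id).card = ∑ X ∈ K, X.card := Finset.card_biUnion hdisj
    rw [← h2]
    apply Finset.card_le_card
    intro m hm
    obtain ⟨X, hX, hmX⟩ := Finset.mem_biUnion.1 hm
    apply hSQ
    have hmX' : m ∈ X := hmX
    rw [← hrC X hX] at hmX'
    exact hCS _ (hrS X hX) hmX'
  have hcard2 : ∀ X ∈ K, 2 ≤ X.card := by
    intro X hX
    have hr := (hS _).1 (hrS X hX)
    obtain ⟨l, hl, hbl⟩ := h1 (b (r X)) (hbV _ hr) (r X) (by rw [hb1 _ hr]; exact one_ne_zero)
    have h2 : ({r X, l} : Finset ι) ⊆ X := by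
      intro m hm
      rw [← hrC X hX]
      rcases Finset.mem_insert.1 hm with h | h
      · rw [h]; exact hself _ (hrS X hX)
      · rw [Finset.mem_singleton.1 h, hC]; exact hbl
    calc 2 = ({r X, l} : Finset ι).card := (Finset.card_pair (Ne.symm hl)).symm
      _ ≤ X.card := Finset.card_le_card h2
  let T : Finset (Finset ι) := K.filter fun X => X.card = 2
  have hT : 3 * K.card ≤ T.card + ∑ X ∈ K, X.card := by
    have h3 : ∀ X ∈ K, 3 ≤ (if X.card = 2 then 1 else 0) + X.card := by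
      intro X hX
      have := hcard2 X hX
      split_ifs with h <;> omega
    calc 3 * K.card = ∑ X ∈ K, 3 := by rw [Finset.sum_const, smul_eq_mul, mul_comm]
      _ ≤ ∑ X ∈ K, ((if X.card = 2 then 1 else 0) + X.card) := Finset.sum_le_sum h3
      _ = T.card + ∑ X ∈ K, X.card := by
          rw [Finset.sum_add_distrib, Finset.card_filter]
  have hNT : N ≤ T.card := by omega
  obtain ⟨g⟩ : Nonempty (Fin N ↪ T) := by
    rw [Function.Embedding.nonempty_iff_card_le]; simpa using hNT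
  have hgK : ∀ i, (g i : Finset ι) ∈ K := fun i => (Finset.mem_filter.1 (g i).2).1
  have hg2 : ∀ i, (g i : Finset ι).card = 2 := fun i => (Finset.mem_filter.1 (g i).2).2
  have hp : ∀ i, r (g i) ∈ (g i : Finset ι) := fun i => by
    have := hself _ (hrS _ (hgK i))
    rwa [hrC _ (hgK i)] at this
  have hq : ∀ i, ∃ l, l ≠ r (g i) ∧ (g i : Finset ι) = {r (g i), l} := by
    intro i
    obtain ⟨x, y, hxy, he⟩ := Finset.card_eq_two.1 (hg2 i)
    have hm := hp i
    generalize r (g i : Finset ι) = z at hm ⊢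
    rw [he, Finset.mem_insert, Finset.mem_singleton] at hm
    rcases hm with h | h
    · exact ⟨y, by rw [h]; exact Ne.symm hxy, by rw [he, h]⟩
    · exact ⟨x, by rw [h]; exact hxy, by rw [he, h, Finset.pair_comm]⟩
  choose q hqne hqe using hq
  have hqm : ∀ i, q i ∈ (g i : Finset ι) := fun i => by
    have : q i ∈ ({r (g i), q i} : Finset ι) := by simp
    rwa [← hqe i] at this
  have hcls : ∀ i m, m ∈ (g i : Finset ι) → C m = g i := by
    intro i m hm
    have h := hCeq _ (hrS _ (hgK i)) m (by rw [hrC _ (hgK i)]; exact hm)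
    rw [h, hrC _ (hgK i)]
  have hinj : ∀ i j m, m ∈ (g i : Finset ι) → m ∈ (g j : Finset ι) → i = j := by
    intro i j m hi hj
    apply g.injective
    apply Subtype.ext
    rw [← hcls i m hi, ← hcls j m hj]
  have hbq : ∀ i, b (r (g i)) (q i) ≠ 0 := fun i => by
    rw [← hC, hrC _ (hgK i)]; exact hqm i
  have hrr : ∀ i, ∃ c ∈ V, c (r (g i)) ≠ 0 := fun i => (hS _).1 (hrS _ (hgK i))
  refine ⟨fun i => r (g i), q, fun _ => 1, fun i => b (r (g i)) (q i), ?_, ?_, ?_, ?_, ?_, ?_, ?_⟩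
  · intro i j hij
    exact hinj i j _ (hp i) (by simpa only [hij] using hp j)
  · intro i j hij
    exact hinj i j _ (hqm i) (by rw [hij]; exact hqm j)
  · intro i j hij
    have hij' : r (g i) = q j := hij
    have h := hinj i j _ (hp i) (by rw [hij']; exact hqm j)
    subst h
    exact hqne i hij'.symm
  · intro i; exact one_pos
  · intro i
    exact lt_of_le_of_ne (hb0 _ (hrr i) _) (Ne.symm (hbq i))
  · intro i
    refine ⟨b (r (g i)), hbV _ (hrr i), hb1 _ (hrr i), rfl, fun l hl1 hl2 => ?_⟩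
    by_contra h
    have : l ∈ C (r (g i)) := (hC _ _).2 h
    rw [hrC _ (hgK i), hqe i, Finset.mem_insert, Finset.mem_singleton] at this
    rcases this with h | h
    · exact hl1 h
    · exact hl2 h
  · intro i c hc
    rw [one_mul]
    exact (hba _ (hrr i) _ (hbq i) c hc).symm

end H54.EV
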